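import Pool.Agent.Helper4.AP.Num

set_option autoImplicit false

namespace Pool.Agent.Results.MP_3dd6d4_an.AllPowers

/-- Explicit bounds for all powers of the Beurling-Ahlfors transform. Let `n ≥ 1` and
`N = (n+1)/2 * ((n+1)/(n-1)) ^ ((n-1)/2)` (so `N = 1` for `n = 1`). Then `N ≤ e n / 2`, and for
every Schwartz function `f` on the plane: `‖T^n f‖_p ≤ N max (p-1) (1/(p-1)) ‖f‖_p` for all real
`p > 1`; `‖T^n f‖_p ≤ (N (r-1)) ^ ((1-2/p)/(1-2/r)) ‖f‖_p` whenever `2 ≤ p ≤ r` and `r > 2`;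
`‖T^n f‖_p ≤ (e²/2) n^(1-2/p) (p - 1 + 2 log n) ‖f‖_p` for all real `p ≥ 2`. -/
theorem result (n : ℕ) (hn : 1 ≤ n) :
    ((n : ℝ) + 1) / 2 * (((n : ℝ) + 1) / ((n : ℝ) - 1)) ^ (((n : ℝ) - 1) / 2) ≤
        Real.exp 1 / 2 * n ∧
    (∀ p : ℝ, 1 < p → ∀ f : SchwartzMap ℂ ℂ,
      MeasureTheory.eLpNorm
        (fun z : ℂ => ∫ ξ : ℂ,
          Complex.exp (2 * (Real.pi : ℂ) * Complex.I * ((z.re * ξ.re + z.im * ξ.im : ℝ) : ℂ)) *
            ((starRingEnd ℂ ξ / ξ) ^ n *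
              ∫ w : ℂ, Complex.exp (-(2 * (Real.pi : ℂ) * Complex.I *
                ((w.re * ξ.re + w.im * ξ.im : ℝ) : ℂ))) * f w))
        (ENNReal.ofReal p) MeasureTheory.volume
      ≤ ENNReal.ofReal (((n : ℝ) + 1) / 2 *
            (((n : ℝ) + 1) / ((n : ℝ) - 1)) ^ (((n : ℝ) - 1) / 2) * max (p - 1) (1 / (p - 1))) *
        MeasureTheory.eLpNorm (fun z : ℂ => f z) (ENNReal.ofReal p) MeasureTheory.volume) ∧
    (∀ p r : ℝ, 2 ≤ p → p ≤ r → 2 < r → ∀ f : SchwartzMap ℂ ℂ,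
      MeasureTheory.eLpNorm
        (fun z : ℂ => ∫ ξ : ℂ,
          Complex.exp (2 * (Real.pi : ℂ) * Complex.I * ((z.re * ξ.re + z.im * ξ.im : ℝ) : ℂ)) *
            ((starRingEnd ℂ ξ / ξ) ^ n *
              ∫ w : ℂ, Complex.exp (-(2 * (Real.pi : ℂ) * Complex.I *
                ((w.re * ξ.re + w.im * ξ.im : ℝ) : ℂ))) * f w))
        (ENNReal.ofReal p) MeasureTheory.volume
      ≤ ENNReal.ofReal ((((n : ℝ) + 1) / 2 *
            (((n : ℝ) + 1) / ((n : ℝ) - 1)) ^ (((n : ℝ) - 1) / 2) * (r - 1)) ^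
              ((1 - 2 / p) / (1 - 2 / r))) *
        MeasureTheory.eLpNorm (fun z : ℂ => f z) (ENNReal.ofReal p) MeasureTheory.volume) ∧
    (∀ p : ℝ, 2 ≤ p → ∀ f : SchwartzMap ℂ ℂ,
      MeasureTheory.eLpNorm
        (fun z : ℂ => ∫ ξ : ℂ,
          Complex.exp (2 * (Real.pi : ℂ) * Complex.I * ((z.re * ξ.re + z.im * ξ.im : ℝ) : ℂ)) *
            ((starRingEnd ℂ ξ / ξ) ^ n *
              ∫ w : ℂ, Complex.exp (-(2 * (Real.pi : ℂ) * Complex.I *
                ((w.re * ξ.re + w.im * ξ.im : ℝ) : ℂ))) * f w))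
        (ENNReal.ofReal p) MeasureTheory.volume
      ≤ ENNReal.ofReal (Real.exp 2 / 2 * (n : ℝ) ^ (1 - 2 / p) * (p - 1 + 2 * Real.log n)) *
        MeasureTheory.eLpNorm (fun z : ℂ => f z) (ENNReal.ofReal p) MeasureTheory.volume) := by
  have hN := Pool.Agent.Helper4.AP.NN_pos n hn
  have hlog : 0 ≤ Real.log n := Real.log_natCast_nonneg n
  refine ⟨Pool.Agent.Helper4.AP.NN_le n hn, fun p hp f => ?_, fun p r hp hpr hr f => ?_,
    fun p hp f => ?_⟩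
  · have h := Pool.Agent.Helper4.AP.eLp_of_TB (by linarith)
      (mul_nonneg hN.le (le_max_of_le_left (by linarith)))
      (Pool.Agent.Helper4.AP.TB_all n hn p hp) f
    simpa only [Pool.Agent.Helper4.AP.NN, Helper72.BA.Tn] using h
  · have h := Pool.Agent.Helper4.AP.eLp_of_TB (by linarith)
      (Real.rpow_nonneg (mul_nonneg hN.le (by linarith)) _)
      (Pool.Agent.Helper4.AP.TB_int n hn hp hpr hr) f
    simpa only [Pool.Agent.Helper4.AP.NN, Helper72.BA.Tn] using h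
  · have h := Pool.Agent.Helper4.AP.eLp_of_TB (by linarith)
      (mul_nonneg (mul_nonneg (by positivity) (Real.rpow_nonneg (Nat.cast_nonneg n) _))
        (by linarith))
      (Pool.Agent.Helper4.AP.TB_unif n hn hp) f
    simpa only [Helper72.BA.Tn] using h

end Pool.Agent.Results.MP_3dd6d4_an.AllPowers
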