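import Pool.Agent.Helper69.CS.TopC

set_option autoImplicit false

namespace Pool.Agent.Results.MP_3dd6d4_an.EveryMode

/-- Let `n ≥ 1`, let `p ≥ 2` be real and let `m` be any integer.  For every Schwartz function `f` on the
plane with `f(e^{iθ} z) = e^{imθ} f(z)` the `n`-th power of the Beurling-Ahlfors transform satisfies
`‖T^n f‖_p ≤ C ‖f‖_p`, where for `m = 2n`
`C = (1/q)_n/(1/p)_n = ∏_{k=1}^n (k - 1/p)/(k - 1 + 1/p)` if `p ≤ 4` or `n ≤ 2` and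
`C = (1 + 13/(100p) - 2/(5p²) - 7/(15p³)) (1/q)_n/(1/p)_n` if `p > 4` and `n ≥ 3`, and
`C = (e² max(1, min(|m-n|, n)))^(1-2/p)` for `m ≠ 2n`; in all cases `C ≤ n^(1-2/p) (p-1)`. -/
theorem result (n : ℕ) (hn : 1 ≤ n) (p : ℝ) (hp : 2 ≤ p) (m : ℤ)
    (f : SchwartzMap ℂ ℂ)
    (hf : ∀ (θ : ℝ) (z : ℂ),
      f (Complex.exp (θ * Complex.I) * z) = Complex.exp (m * θ * Complex.I) * f z) :
    MeasureTheory.eLpNorm
        (fun z : ℂ => ∫ ξ : ℂ,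
          Complex.exp (2 * (Real.pi : ℂ) * Complex.I * ((z.re * ξ.re + z.im * ξ.im : ℝ) : ℂ)) *
            ((starRingEnd ℂ ξ / ξ) ^ n *
              ∫ w : ℂ, Complex.exp (-(2 * (Real.pi : ℂ) * Complex.I *
                ((w.re * ξ.re + w.im * ξ.im : ℝ) : ℂ))) * f w))
        (ENNReal.ofReal p) MeasureTheory.volume
      ≤ ENNReal.ofReal (if m = 2 * n then
            (if p ≤ 4 ∨ n ≤ 2 then 1 else 1 + 13 / 100 / p - 2 / 5 / p ^ 2 - 7 / 15 / p ^ 3) *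
              ∏ k ∈ Finset.range n, ((k + 1 - 1 / p) / (k + 1 / p))
          else (Real.exp 2 * max 1 (min |(m : ℝ) - n| n)) ^ (1 - 2 / p)) *
        MeasureTheory.eLpNorm (fun z : ℂ => f z) (ENNReal.ofReal p) MeasureTheory.volume ∧
    (if m = 2 * n then
        (if p ≤ 4 ∨ n ≤ 2 then 1 else 1 + 13 / 100 / p - 2 / 5 / p ^ 2 - 7 / 15 / p ^ 3) *
          ∏ k ∈ Finset.range n, ((k + 1 - 1 / p) / (k + 1 / p))
      else (Real.exp 2 * max 1 (min |(m : ℝ) - n| n)) ^ (1 - 2 / p)) ≤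
      (n : ℝ) ^ (1 - 2 / p) * (p - 1) := by
  have h := Helper69.CS.every_modeC n hn p hp m f hf
  have e : (1 + if p ≤ 4 ∨ n ≤ 2 then 0 else 13 / 100 / p - 2 / 5 / p ^ 2 - 7 / 15 / p ^ 3 : ℝ) =
      if p ≤ 4 ∨ n ≤ 2 then 1 else 1 + 13 / 100 / p - 2 / 5 / p ^ 2 - 7 / 15 / p ^ 3 := by
    split_ifs
    · ring
    · ring
  rw [e] at h
  exact h

end Pool.Agent.Results.MP_3dd6d4_an.EveryMode
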