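import Pool.Agent.Helper87.NF.AsmS

set_option autoImplicit false

namespace Pool.Agent.Results.MP_3dd6d4_an.IwaniecConjecture

/-- Iwaniec's conjecture. For every real `p > 1`, the number `max (p - 1) (1 / (p - 1))` is the
least real `C` such that `‖T f‖_p ≤ C ‖f‖_p` for all Schwartz functions `f` on the plane, where `T`
is the Beurling-Ahlfors transform (the Fourier multiplier `conj ξ / ξ`). -/
theorem result (p : ℝ) (hp : 1 < p) :
    IsLeast {C : ℝ | ∀ f : SchwartzMap ℂ ℂ,
      MeasureTheory.eLpNorm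
        (fun z : ℂ => ∫ ξ : ℂ,
          Complex.exp (2 * (Real.pi : ℂ) * Complex.I * ((z.re * ξ.re + z.im * ξ.im : ℝ) : ℂ)) *
            ((starRingEnd ℂ ξ / ξ) *
              ∫ w : ℂ, Complex.exp (-(2 * (Real.pi : ℂ) * Complex.I *
                ((w.re * ξ.re + w.im * ξ.im : ℝ) : ℂ))) * f w))
        (ENNReal.ofReal p) MeasureTheory.volume
      ≤ ENNReal.ofReal C *
        MeasureTheory.eLpNorm (fun z : ℂ => f z) (ENNReal.ofReal p) MeasureTheory.volume}
      (max (p - 1) (1 / (p - 1))) := by
  have h := Helper87.NF.norm_T p hp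
  simpa only [Helper87.NF.TBd, Helper72.BA.Tn, pow_one] using h

end Pool.Agent.Results.MP_3dd6d4_an.IwaniecConjecture
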