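import Pool.Agent.Helper72.BQM.Main
import Pool.Agent.Helper87.UB.Main

set_option autoImplicit false

namespace Pool.Agent.Results.MP_3dd6d4_an.UniformAsymptotics

/-- Sharp asymptotic upper bound for the norms of the powers of the Beurling–Ahlfors operator,
uniform in all real `p ≥ 2`.

(1) For every `ε > 0` there is `N` such that for all `n ≥ N`, all real `p ≥ 2` and all Schwartz `f`,
`‖T^n f‖_p ≤ e^{ε min(p-2,1)} (1/q)_n / (1/p)_n ‖f‖_p`, where `1/q = 1 - 1/p` and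
`(1/q)_n / (1/p)_n` is the product of `(1 - 1/p + j) / (1/p + j)` over `j < n`.

(2) For every `P` there is `N` such that for all real `p ∈ [2, P]`, all `n ≥ N` and all Schwartz `f`,
`‖T^n f‖_p ≤ n^{1-2/p} (p-1) ‖f‖_p`. -/
theorem result :
    (∀ ε : ℝ, 0 < ε → ∃ N : ℕ, ∀ n : ℕ, N ≤ n → ∀ p : ℝ, 2 ≤ p →
      ∀ f : SchwartzMap ℂ ℂ,
      MeasureTheory.eLpNorm
        (fun z : ℂ => ∫ ξ : ℂ,
          Complex.exp (2 * (Real.pi : ℂ) * Complex.I * ((z.re * ξ.re + z.im * ξ.im : ℝ) : ℂ)) *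
            ((starRingEnd ℂ ξ / ξ) ^ n *
              ∫ w : ℂ, Complex.exp (-(2 * (Real.pi : ℂ) * Complex.I *
                ((w.re * ξ.re + w.im * ξ.im : ℝ) : ℂ))) * f w))
        (ENNReal.ofReal p) MeasureTheory.volume
      ≤ ENNReal.ofReal (Real.exp (ε * min (p - 2) 1) *
          ∏ j ∈ Finset.range n, ((1 - 1 / p + j) / (1 / p + j))) *
        MeasureTheory.eLpNorm (fun z : ℂ => f z) (ENNReal.ofReal p) MeasureTheory.volume) ∧
    (∀ P : ℝ, ∃ N : ℕ, ∀ n : ℕ, N ≤ n → ∀ p : ℝ, 2 ≤ p → p ≤ P →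
      ∀ f : SchwartzMap ℂ ℂ,
      MeasureTheory.eLpNorm
        (fun z : ℂ => ∫ ξ : ℂ,
          Complex.exp (2 * (Real.pi : ℂ) * Complex.I * ((z.re * ξ.re + z.im * ξ.im : ℝ) : ℂ)) *
            ((starRingEnd ℂ ξ / ξ) ^ n *
              ∫ w : ℂ, Complex.exp (-(2 * (Real.pi : ℂ) * Complex.I *
                ((w.re * ξ.re + w.im * ξ.im : ℝ) : ℂ))) * f w))
        (ENNReal.ofReal p) MeasureTheory.volume
      ≤ ENNReal.ofReal ((n : ℝ) ^ (1 - 2 / p) * (p - 1)) *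
        MeasureTheory.eLpNorm (fun z : ℂ => f z) (ENNReal.ofReal p) MeasureTheory.volume) := by
  refine ⟨fun ε hε => ?_, fun P => ?_⟩
  · obtain ⟨N, hN⟩ := Helper87.UB.uniform ε hε
    refine ⟨N, fun n hn p h1 f => ?_⟩
    have h := hN n hn p h1 f
    unfold Helper72.BQ.P.rat at h
    rw [← Finset.prod_div_distrib] at h
    exact h
  · obtain ⟨N, hN⟩ := Helper72.BQ.P.question_one P
    exact ⟨N, fun n hn p h1 h2 f => hN n hn p h1 h2 f⟩

end Pool.Agent.Results.MP_3dd6d4_an.UniformAsymptotics
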